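import Pool.Agent.Y590.CB.Farx
import Pool.Agent.Y79.CG.Thz
import Pool.Agent.Y481.DR.Defs

set_option autoImplicit false

/-!
# THZV: bounds of the blocks, with the functions of the children
-/

namespace Pool.Agent.Y319.DR

open Finset Filter Topology
open Pool.Agent.W711.HT Pool.Agent.Y472 Pool.Agent.Y590.CB
open Pool.Agent.W346.HT (Sd_pos Sd_mul)
open Pool.Agent.W398.HT (Rp_diff)
open Pool.Agent.Y79.CG (prod_le)
open Pool.Agent.Y481.DR (Vx SubE SubL cV MAV MBV TV ThV S_THZV)
open scoped Real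

/-- bound of the entries `cV` -/
theorem cV_bd (h4 : ∀ δ x : ℝ, 0 ≤ δ → δ ≤ 1 → |x| ≤ π → bb δ x ≤ max (bb δ 0) 0) (V : Vx)
    (hV : SubE V.2) (ε : ℝ) (hε : 0 < ε) : ∃ C : ℝ, 0 < C ∧ ∀ᶠ N : ℕ in atTop, ∀ y x : ℕ,
    y < N → x < N →
    ‖cV N V y x‖ ≤ C * (N : ℝ) ^ 2 * (Sd N y ^ 2 / Sd N x ^ 2) *
      Real.exp (N * (bp ((y : ℝ) / N) + bp (1 - (x : ℝ) / N) + 3 * ε)) := by
  obtain ⟨C, hC, hU⟩ := upp_bd V.1
  obtain ⟨τ, hτ, hB⟩ := Pool.Agent.W688.HT.b0 (ε / 2) (half_pos hε)
  refine ⟨C, hC, ?_⟩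
  have h1 : ∀ᶠ N : ℕ in atTop, (1 : ℝ) / (N : ℝ) < τ :=
    (tendsto_const_div_atTop_nhds_zero_nat 1).eventually (gt_mem_nhds hτ)
  filter_upwards [hU, hB, h1, bp_uc (ε / 2) (half_pos hε), hV.gr ε hε,
    eventually_gt_atTop 0] with N hU hB h1 huc hY N0
  intro y x hy hx
  have hNR : (0 : ℝ) < N := by exact_mod_cast N0
  have hSx := Sd_pos hx
  have hSy := Sd_pos hy
  have hx' : N - 1 - x < N := by omega
  have hSx' := Sd_pos hx'
  have hmul := Sd_mul hx
  have key : ∀ d < N, ∀ X Y : ℝ, |X| ≤ π → |Y| ≤ 1 / N →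
      ‖Rp N d (X + Y * Complex.I)‖ ≤ Sd N d ^ 2 * Real.exp (N * (bp ((d : ℝ) / N) + ε / 2)) := by
    intro d hd X Y hX hY
    refine (hB d hd X Y hX (hY.trans h1.le)).trans ?_
    have hd1 : (d : ℝ) / N ≤ 1 := by
      rw [div_le_one hNR]
      exact_mod_cast hd.le
    have := h4 ((d : ℝ) / N) X (by positivity) hd1 hX
    unfold bp
    gcongr
  set B : ℝ := Real.exp (N * ε) *
    ((Sd N (N - 1 - x) ^ 2 * Real.exp (N * (bp (((N - 1 - x : ℕ) : ℝ) / N) + ε / 2))) *
    (Sd N y ^ 2 * Real.exp (N * (bp ((y : ℝ) / N) + ε / 2)))) with hBdef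
  have h2 := hU (fun ψ => V.2 N ψ * (Rp N (N - 1 - x) ψ * Rp N y ψ)) B
    ((hV.an N).continuous.mul ((Rp_diff N _).continuous.mul (Rp_diff N _).continuous)) (by
      intro X Y hX hY1
      rw [norm_mul, norm_mul]
      have hre : ((X : ℂ) + Y * Complex.I).re = X := by simp
      have him : ((X : ℂ) + Y * Complex.I).im = Y := by simp
      exact mul_le_mul (hY _ (by rwa [hre]) (by rwa [him]))
        (mul_le_mul (key _ hx' X Y hX hY1) (key _ hy X Y hX hY1) (norm_nonneg _)
        (by positivity)) (by positivity) (by positivity))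
  have h3 : ‖cV N V y x‖ ≤ C * B := by
    have e : (upp (1 / N) fun ψ => Ea V.1 N ψ * V.2 N ψ * Rp N (N - 1 - x) ψ * Rp N y ψ * kr N ψ) =
        upp (1 / N) fun ψ => Ea V.1 N ψ * (V.2 N ψ * (Rp N (N - 1 - x) ψ * Rp N y ψ)) * kr N ψ := by
      congr 1
      funext ψ
      ring
    unfold cV
    rw [e, norm_mul, norm_div, norm_pow, norm_neg, norm_one, one_pow]
    have h5 : ‖(2 * π : ℂ)‖ = 2 * π := by
      rw [norm_mul, Complex.norm_real, Real.norm_of_nonneg Real.pi_pos.le]
      simp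
    rw [h5]
    have h6 : 1 / (2 * π) ≤ 1 := by
      rw [div_le_one (by positivity)]
      linarith [Real.pi_gt_three]
    have h7 : 0 ≤ 1 / (2 * π) := by positivity
    exact (mul_le_of_le_one_left (norm_nonneg _) h6).trans h2
  refine h3.trans ?_
  have e1 : Sd N (N - 1 - x) = N / Sd N x := by
    rw [eq_div_iff hSx.ne', mul_comm]
    exact hmul
  have h8 := huc x hx
  rw [hBdef, e1]
  calc C * (Real.exp (N * ε) * ((((N : ℝ) / Sd N x) ^ 2 *
        Real.exp (N * (bp (((N - 1 - x : ℕ) : ℝ) / N) + ε / 2))) *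
        (Sd N y ^ 2 * Real.exp (N * (bp ((y : ℝ) / N) + ε / 2))))) =
      C * (N : ℝ) ^ 2 * (Sd N y ^ 2 / Sd N x ^ 2) *
        (Real.exp (N * ε) * (Real.exp (N * (bp (((N - 1 - x : ℕ) : ℝ) / N) + ε / 2)) *
          Real.exp (N * (bp ((y : ℝ) / N) + ε / 2)))) := by
        field_simp
    _ ≤ C * (N : ℝ) ^ 2 * (Sd N y ^ 2 / Sd N x ^ 2) *
      Real.exp (N * (bp ((y : ℝ) / N) + bp (1 - (x : ℝ) / N) + 3 * ε)) := by
        rw [← Real.exp_add, ← Real.exp_add]
        have h9 : (N : ℝ) * ε + ((N : ℝ) * (bp (((N - 1 - x : ℕ) : ℝ) / N) + ε / 2) +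
            N * (bp ((y : ℝ) / N) + ε / 2)) ≤
            N * (bp ((y : ℝ) / N) + bp (1 - (x : ℝ) / N) + 3 * ε) := by
          rw [← mul_add, ← mul_add]
          exact mul_le_mul_of_nonneg_left (by linarith) hNR.le
        have := Real.exp_le_exp.2 h9
        gcongr

/-- the bounds of the matrices, one twist region -/
theorem ent1V (h : S_TB0)
    (h4 : ∀ δ x : ℝ, 0 ≤ δ → δ ≤ 1 → |x| ≤ π → bb δ x ≤ max (bb δ 0) 0) (a : Vx)
    (ha : SubE a.2) (ε : ℝ) (hε : 0 < ε) : ∃ τ : ℝ, 0 < τ ∧ ∀ᶠ N : ℕ in atTop, ∀ χ : ℂ, |χ.re| ≤ π → |χ.im| ≤ τ →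
    Bd (fun x : Fin N => wp N ε x) (fun y : Fin N => wq N ε y) (MAV N a) ∧
    Bd (fun y : Fin N => wq' N ε χ.re y) (fun x : Fin N => wp' N ε χ.re x) (MBV N χ a) := by
  obtain ⟨C, hC, hJ⟩ := cV_bd h4 a ha ε hε
  obtain ⟨τ, hτ, hP⟩ := Ph_bd h ε hε
  refine ⟨τ, hτ, ?_⟩
  filter_upwards [hJ, hP, ev_N (ε := ε / 2) (half_pos hε), ev_le (K := C) (ε := ε) hε,
    eventually_gt_atTop 0] with N hJ hP hN hK hN0
  intro χ hχ1 hχ2
  have hNR : (0 : ℝ) < N := by exact_mod_cast hN0
  have hCN : C * (N : ℝ) ^ 2 ≤ Real.exp (N * (2 * ε)) := by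
    calc C * (N : ℝ) ^ 2 ≤ Real.exp (N * ε) * Real.exp (N * (ε / 2)) ^ 2 := by gcongr
      _ = Real.exp (N * (2 * ε)) := by
        rw [← Real.exp_nat_mul, ← Real.exp_add]
        congr 1
        push_cast
        ring
  constructor
  · intro x y
    have hSx := Sd_pos x.isLt
    have hSy := Sd_pos y.isLt
    have hp := wp_pos x.isLt ε
    have hq := wq_pos y.isLt ε
    unfold MAV
    split_ifs
    · refine (hJ y x y.isLt x.isLt).trans ?_
      have h1 : C * (N : ℝ) ^ 2 ≤ Real.exp (N * (3 * ε)) :=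
        hCN.trans (Real.exp_le_exp.2 (by nlinarith))
      calc C * (N : ℝ) ^ 2 * (Sd N y ^ 2 / Sd N x ^ 2) *
          Real.exp (N * (bp ((y : ℝ) / N) + bp (1 - (x : ℝ) / N) + 3 * ε)) ≤
          Real.exp (N * (3 * ε)) * (Sd N y ^ 2 / Sd N x ^ 2) *
          Real.exp (N * (bp ((y : ℝ) / N) + bp (1 - (x : ℝ) / N) + 3 * ε)) := by gcongr
        _ = (Sd N y ^ 2 / Sd N x ^ 2) * (Real.exp (N * (3 * ε)) *
          Real.exp (N * (bp ((y : ℝ) / N) + bp (1 - (x : ℝ) / N) + 3 * ε))) := by ring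
        _ = (Sd N y ^ 2 / Sd N x ^ 2) * (Real.exp (N * (bp (1 - (x : ℝ) / N) + 3 * ε)) *
          Real.exp (N * (bp ((y : ℝ) / N) + 3 * ε))) := by
          rw [← Real.exp_add, ← Real.exp_add]
          congr 2
          ring
        _ = wp N ε x * wq N ε y := by
          unfold wp wq
          ring
    · rw [norm_zero]
      positivity
  · intro y x
    have hSx := Sd_pos x.isLt
    have hSy := Sd_pos y.isLt
    have hp := wp'_pos x.isLt ε χ.re
    have hq := wq'_pos y.isLt ε χ.re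
    unfold MBV
    split_ifs with hle
    · rw [norm_mul]
      have h1 := hP y x hle x.isLt χ hχ1 hχ2
      have h2 := hJ y x y.isLt x.isLt
      calc ‖∏ t ∈ Ioc (y : ℕ) x, Ph N χ t‖ * ‖cV N a y x‖ ≤
          ((Sd N x ^ 2 / Sd N y ^ 2) ^ 2 *
            Real.exp (N * (rh ((x : ℝ) / N) χ.re - rh ((y : ℝ) / N) χ.re + ε))) *
          (C * (N : ℝ) ^ 2 * (Sd N y ^ 2 / Sd N x ^ 2) *
            Real.exp (N * (bp ((y : ℝ) / N) + bp (1 - (x : ℝ) / N) + 3 * ε))) :=
            mul_le_mul h1 h2 (norm_nonneg _) (by positivity)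
        _ ≤ ((Sd N x ^ 2 / Sd N y ^ 2) ^ 2 *
            Real.exp (N * (rh ((x : ℝ) / N) χ.re - rh ((y : ℝ) / N) χ.re + ε))) *
          (Real.exp (N * (2 * ε)) * (Sd N y ^ 2 / Sd N x ^ 2) *
            Real.exp (N * (bp ((y : ℝ) / N) + bp (1 - (x : ℝ) / N) + 3 * ε))) := by gcongr
        _ = (Sd N x ^ 2 / Sd N y ^ 2) *
            (Real.exp (N * (rh ((x : ℝ) / N) χ.re - rh ((y : ℝ) / N) χ.re + ε)) *
            Real.exp (N * (2 * ε)) *
            Real.exp (N * (bp ((y : ℝ) / N) + bp (1 - (x : ℝ) / N) + 3 * ε))) := by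
            field_simp
        _ = (Sd N x ^ 2 / Sd N y ^ 2) *
            (Real.exp (N * (bp ((y : ℝ) / N) - rh ((y : ℝ) / N) χ.re + 3 * ε)) *
            Real.exp (N * (bp (1 - (x : ℝ) / N) + rh ((x : ℝ) / N) χ.re + 3 * ε))) := by
            rw [← Real.exp_add, ← Real.exp_add, ← Real.exp_add]
            congr 2
            ring
        _ = wq' N ε χ.re y * wp' N ε χ.re x := by
            unfold wq' wp'
            ring
    · rw [norm_zero]
      positivity

/-- the bounds of the matrices -/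
theorem entV (h : S_TB0)
    (h4 : ∀ δ x : ℝ, 0 ≤ δ → δ ≤ 1 → |x| ≤ π → bb δ x ≤ max (bb δ 0) 0) (ls : List (Vx × Vx))
    (hls : SubL ls) (ε : ℝ) (hε : 0 < ε) : ∃ τ : ℝ, 0 < τ ∧ ∀ᶠ N : ℕ in atTop, ∀ χ : ℂ, |χ.re| ≤ π → |χ.im| ≤ τ →
    ∀ s ∈ ls, Bd (fun x : Fin N => wp N ε x) (fun y : Fin N => wq N ε y) (MAV N s.1) ∧
    Bd (fun y : Fin N => wq' N ε χ.re y) (fun x : Fin N => wp' N ε χ.re x) (MBV N χ s.2) := by
  induction ls with
  | nil => exact ⟨1, one_pos, Eventually.of_forall fun N χ _ _ s hs => absurd hs (by simp)⟩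
  | cons a l ih =>
    obtain ⟨τ0, hτ0, H0⟩ := ih fun p hp => hls p (List.mem_cons_of_mem _ hp)
    obtain ⟨τ1, hτ1, H1⟩ := ent1V h h4 a.1 (hls a List.mem_cons_self).1 ε hε
    obtain ⟨τ2, hτ2, H2⟩ := ent1V h h4 a.2 (hls a List.mem_cons_self).2 ε hε
    refine ⟨min τ0 (min τ1 τ2), by positivity, ?_⟩
    filter_upwards [H0, H1, H2] with N H0 H1 H2
    intro χ hχ1 hχ2 s hs
    rcases List.mem_cons.1 hs with rfl | hs
    · exact ⟨(H1 χ hχ1 (hχ2.trans ((min_le_right _ _).trans (min_le_left _ _)))).1,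
        (H2 χ hχ1 (hχ2.trans ((min_le_right _ _).trans (min_le_right _ _)))).2⟩
    · exact H0 χ hχ1 (hχ2.trans (min_le_left _ _)) s hs

theorem MBV_congr {N : ℕ} {χ χ' : ℂ} (h : Complex.cos χ = Complex.cos χ') (b : Vx) :
    MBV N χ b = MBV N χ' b := by
  funext i j
  unfold MBV Ph
  rw [h]

theorem thzv : S_THZV := by
  intro hT hR hRT ls hl hls ε hε
  obtain ⟨ρs, hρ0, hρ1, R1, R2, R3, R4, -, -⟩ := hR
  have hπ := Real.pi_pos
  set k := ls.length with hk
  have hk1 : 1 ≤ k := by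
    rw [hk]
    exact List.length_pos_iff.2 hl
  have hkR : (1 : ℝ) ≤ k := by exact_mod_cast hk1
  set e : ℝ := ε / (14 * k) with he
  have he0 : 0 < e := by positivity
  have he1 : 14 * k * e = ε := by
    rw [he]
    field_simp
  obtain ⟨τ, hτ, H⟩ := entV hT R4 ls hls e he0
  filter_upwards [H, ev_N he0, eventually_gt_atTop 0] with N H hN hN0
  intro p hp
  have hNR : (0 : ℝ) < N := by exact_mod_cast hN0
  have hNC : (N : ℂ) ≠ 0 := by exact_mod_cast hN0.ne'
  -- the final estimate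
  have hfin : ∀ S : ℝ, 0 ≤ S → S ≤ Real.exp (N * (13 / 10 + 14 * e)) →
      S ^ k ≤ Real.exp (N * (13 / 10 * k + ε)) := by
    intro S hS0 hS
    calc S ^ k ≤ (Real.exp (N * (13 / 10 + 14 * e))) ^ k := by gcongr
      _ = Real.exp (N * (13 / 10 * k + ε)) := by
          rw [← Real.exp_nat_mul]
          congr 1
          linear_combination (N : ℝ) * he1
  have hmk0 : ∀ (c : Prop) [Decidable c], (if c then (1 : ℝ) else 0) = 0 ∨
      (if c then (1 : ℝ) else 0) = 1 := by
    intro c _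
    split_ifs <;> simp
  have hmk1 : ∀ (c : Prop) [Decidable c], (if c then (0 : ℝ) else 1) = 0 ∨
      (if c then (0 : ℝ) else 1) = 1 := by
    intro c _
    split_ifs <;> simp
  constructor
  · -- (3a)
    intro h2p
    set u : ℝ := 2 * π * p / N with hu
    have hu0 : 0 ≤ u := by positivity
    have huπ : u ≤ π := by
      rw [hu, div_le_iff₀ hNR]
      have : (2 : ℝ) * p ≤ N := by exact_mod_cast h2p
      nlinarith
    have hu1 : |u| ≤ π := by
      rw [abs_of_nonneg hu0]
      exact huπ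
    have hud : u / (2 * π) = p / N := by
      rw [hu]
      field_simp
    have hχ : (2 * π * p / N : ℂ) = ((u : ℝ) : ℂ) := by
      rw [hu]
      push_cast
      rfl
    have HH := H ((u : ℝ) : ℂ) (by rwa [Complex.ofReal_re]) (by
      rw [Complex.ofReal_im, abs_zero]; exact hτ.le)
    rw [Complex.ofReal_re] at HH
    set Tx : ℝ := ∑ x : Fin N, (if N ≤ (x : ℕ) + p then (1 : ℝ) else 0) *
      (wp' N e u x * wp N e x) with hTx
    set Ty : ℝ := ∑ y : Fin N, (if N ≤ (y : ℕ) + p then (1 : ℝ) else 0) *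
      (wq N e y * wq' N e u y) with hTy
    have hTx0 : 0 ≤ Tx := sum_nonneg fun x _ => by
      have := mul_nonneg (wp'_pos x.isLt e u).le (wp_pos x.isLt e).le
      split_ifs
      · rw [one_mul]
        exact this
      · rw [zero_mul]
    have hTy0 : 0 ≤ Ty := sum_nonneg fun x _ => by
      have := mul_nonneg (wq_pos x.isLt e).le (wq'_pos x.isLt e u).le
      split_ifs
      · rw [one_mul]
        exact this
      · rw [zero_mul]
    have hT : Ty * Tx ≤ Real.exp (N * (13 / 10 + 14 * e)) := by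
      refine prod_le hN (F := fun x : Fin N => 2 * (max (bb (1 - (x : ℝ) / N) 0) 0 -
        rh (1 - (x : ℝ) / N) u / 2)) (G := fun y : Fin N => 2 * (max (bb ((y : ℝ) / N) 0) 0 -
        rh ((y : ℝ) / N) u / 2)) (fun x => wx x.isLt hu1 R1) (fun y => wy y.isLt)
        (fun x => hmk0 _) (fun x => hmk0 _) ?_
      intro x y hx hy
      have hx' : N ≤ (x : ℕ) + p := by
        by_contra hc
        rw [if_neg hc] at hx
        exact hx rfl
      have hy' : N ≤ (y : ℕ) + p := by
        by_contra hc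
        rw [if_neg hc] at hy
        exact hy rfl
      have hxR : (N : ℝ) ≤ (x : ℝ) + p := by exact_mod_cast hx'
      have hyR : (N : ℝ) ≤ (y : ℝ) + p := by exact_mod_cast hy'
      have hxl : (x : ℝ) / N ≤ 1 := by
        rw [div_le_one hNR]
        exact_mod_cast x.isLt.le
      have hyl : (y : ℝ) / N ≤ 1 := by
        rw [div_le_one hNR]
        exact_mod_cast y.isLt.le
      have hx2 : 1 ≤ (x : ℝ) / N + p / N := by
        rw [← add_div, le_div_iff₀ hNR]
        linarith
      have hy2 : 1 ≤ (y : ℝ) / N + p / N := by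
        rw [← add_div, le_div_iff₀ hNR]
        linarith
      have := hRT ((y : ℝ) / N) (1 - (x : ℝ) / N) u hu0 huπ (by rw [hud]; linarith) hyl
        (by linarith) (by rw [hud]; linarith)
      linarith
    have h1 : ∀ s ∈ ls, Bd (fun x : Fin N => Ty * wp N e x)
        (fun x : Fin N => wp' N e u x * (if N ≤ (x : ℕ) + p then (1 : ℝ) else 0))
        (MAV N s.1 * pH N p * MBV N ((u : ℝ) : ℂ) s.2 * pH N p) := by
      intro s hs
      have h3 := ((HH s hs).2.diag_right (d := fun i : Fin N => if N ≤ i + p then (1 : ℂ) else 0)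
        (δ := fun i : Fin N => if N ≤ (i : ℕ) + p then (1 : ℝ) else 0)
        (fun i => norm_mask)).diag_left
        (d := fun i : Fin N => if N ≤ i + p then (1 : ℂ) else 0)
        (δ := fun i : Fin N => if N ≤ (i : ℕ) + p then (1 : ℝ) else 0) (fun i => norm_mask)
      have h4 := (HH s hs).1.mul h3
      rw [mul_assoc, mul_assoc]
      refine h4.mono fun i j => le_of_eq ?_
      congr 2
      rw [hTy]
      exact sum_congr rfl fun y _ => by ring
    have h2 := tr_bd' hl h1 (d := fun i : Fin N => if N ≤ i + p then (1 : ℂ) else 0)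
      (e := fun _ => 1) (fun i => norm_mask1) (fun i => by simp)
    rw [Matrix.diagonal_one, mul_one] at h2
    have e2 : ThV N ls p = (Matrix.diagonal (fun i : Fin N => if N ≤ i + p then (1 : ℂ) else 0) *
      (ls.map fun s => MAV N s.1 * pH N p * MBV N ((u : ℝ) : ℂ) s.2 * pH N p).prod).trace := by
      unfold ThV
      rw [hχ]
      rfl
    rw [e2]
    refine h2.trans ?_
    have e3 : ∑ x : Fin N, wp' N e u x * (if N ≤ (x : ℕ) + p then (1 : ℝ) else 0) *
        (Ty * wp N e x) = Ty * Tx := by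
      rw [hTx, mul_sum]
      exact sum_congr rfl fun x _ => by ring
    rw [e3, ← hk]
    exact hfin _ (mul_nonneg hTy0 hTx0) hT
  · -- (3b)
    intro h2p
    set u : ℝ := 2 * π * p / N - 2 * π with hu
    have hp1 : (p : ℝ) ≤ N := by exact_mod_cast hp.le
    have hp2 : (N : ℝ) ≤ 2 * p := by exact_mod_cast h2p
    have hu2 : 2 * π * p / N ≤ 2 * π := by
      rw [div_le_iff₀ hNR]
      exact mul_le_mul_of_nonneg_left hp1 (by positivity)
    have hu3 : π ≤ 2 * π * p / N := by
      rw [le_div_iff₀ hNR]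
      nlinarith
    have hu1 : |u| ≤ π := by
      rw [abs_le]
      constructor <;> linarith
    have hua : |u| = 2 * π - 2 * π * p / N := by
      rw [abs_of_nonpos (by linarith), hu]
      ring
    have hud : |u| / (2 * π) = 1 - p / N := by
      rw [hua]
      field_simp
    have hcos : Complex.cos (2 * π * p / N : ℂ) = Complex.cos ((u : ℝ) : ℂ) := by
      have : (2 * π * p / N : ℂ) = ((u : ℝ) : ℂ) + 2 * π := by
        rw [hu]
        push_cast
        ring
      rw [this, Complex.cos_add_two_pi]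
    have hMB : ∀ b : Vx, MBV N (2 * π * p / N : ℂ) b = MBV N ((u : ℝ) : ℂ) b :=
      fun b => MBV_congr hcos b
    have HH := H ((u : ℝ) : ℂ) (by rwa [Complex.ofReal_re]) (by
      rw [Complex.ofReal_im, abs_zero]; exact hτ.le)
    rw [Complex.ofReal_re] at HH
    have hrh : ∀ δ : ℝ, rh δ u = rh δ |u| := by
      intro δ
      unfold rh
      rw [Real.cos_abs]
    set Tx : ℝ := ∑ x : Fin N, (if N ≤ (x : ℕ) + p then (0 : ℝ) else 1) *
      (wp' N e u x * wp N e x) with hTx
    set Ty : ℝ := ∑ y : Fin N, (if N ≤ (y : ℕ) + p then (0 : ℝ) else 1) *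
      (wq N e y * wq' N e u y) with hTy
    have hTx0 : 0 ≤ Tx := sum_nonneg fun x _ => by
      have := mul_nonneg (wp'_pos x.isLt e u).le (wp_pos x.isLt e).le
      split_ifs
      · rw [zero_mul]
      · rw [one_mul]
        exact this
    have hTy0 : 0 ≤ Ty := sum_nonneg fun x _ => by
      have := mul_nonneg (wq_pos x.isLt e).le (wq'_pos x.isLt e u).le
      split_ifs
      · rw [zero_mul]
      · rw [one_mul]
        exact this
    have hT : Ty * Tx ≤ Real.exp (N * (13 / 10 + 14 * e)) := by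
      refine prod_le hN (F := fun x : Fin N => 2 * (max (bb (1 - (x : ℝ) / N) 0) 0 -
        rh (1 - (x : ℝ) / N) u / 2)) (G := fun y : Fin N => 2 * (max (bb ((y : ℝ) / N) 0) 0 -
        rh ((y : ℝ) / N) u / 2)) (fun x => wx x.isLt hu1 R1) (fun y => wy y.isLt)
        (fun x => hmk1 _) (fun x => hmk1 _) ?_
      intro x y hx hy
      have hx' : ¬ N ≤ (x : ℕ) + p := by
        intro hc
        rw [if_pos hc] at hx
        exact hx rfl
      have hy' : ¬ N ≤ (y : ℕ) + p := by
        intro hc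
        rw [if_pos hc] at hy
        exact hy rfl
      have hxR : (x : ℝ) + p ≤ (N : ℝ) := by exact_mod_cast (not_le.1 hx').le
      have hyR : (y : ℝ) + p ≤ (N : ℝ) := by exact_mod_cast (not_le.1 hy').le
      have hxl : 0 ≤ (x : ℝ) / N := by positivity
      have hyl : 0 ≤ (y : ℝ) / N := by positivity
      have hx2 : (x : ℝ) / N + p / N ≤ 1 := by
        rw [← add_div, div_le_one hNR]
        linarith
      have hy2 : (y : ℝ) / N + p / N ≤ 1 := by
        rw [← add_div, div_le_one hNR]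
        linarith
      have := hRT (1 - (x : ℝ) / N) ((y : ℝ) / N) |u| (abs_nonneg _) hu1 (by rw [hud]; linarith)
        (by linarith) hyl (by rw [hud]; linarith)
      rw [hrh, hrh]
      linarith
    -- the blocks
    set L : Matrix (Fin N) (Fin N) ℂ := Matrix.diagonal
      (fun i : Fin N => if N ≤ i + p then (0 : ℂ) else 1) with hL
    have hHL : pH N p + L = 1 := diag_compl _
    have hLH : L * pH N p = 0 := by
      rw [hL, pH, Matrix.diagonal_mul_diagonal, ← Matrix.diagonal_zero]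
      congr 1
      funext i
      split_ifs <;> simp
    have hHH : pH N p * pH N p = pH N p := by
      rw [pH, Matrix.diagonal_mul_diagonal]
      congr 1
      funext i
      split_ifs <;> simp
    have hLL : L * L = L := by
      rw [hL, Matrix.diagonal_mul_diagonal]
      congr 1
      funext i
      split_ifs <;> simp
    have hLA : ∀ a : Vx, L * MAV N a * pH N p = 0 := by
      intro a
      ext x y
      rw [hL, pH, Matrix.mul_diagonal, Matrix.diagonal_mul, Matrix.zero_apply]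
      by_cases h1 : N ≤ (x : ℕ) + p
      · rw [if_pos h1]
        ring
      by_cases h2 : N ≤ (y : ℕ) + p
      · have h3 : MAV N a x y = 0 := by
          unfold MAV
          rw [if_neg]
          rw [Fin.le_def]
          omega
        rw [h3]
        ring
      · rw [if_neg h2]
        ring
    have hPh : Ph N (2 * π * p / N : ℂ) (N - p) = 0 := by
      unfold Ph
      have e1 : Real.cos (2 * π * ((N - p : ℕ) : ℝ) / N) = Real.cos (2 * π * p / N) :=
        cos_symm hN0 hp.le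
      rw [e1]
      have e2 : Complex.cos (2 * π * p / N : ℂ) = ((Real.cos (2 * π * p / N) : ℝ) : ℂ) := by
        push_cast
        rfl
      rw [e2, sub_self, mul_zero]
    have hLB : ∀ b : Vx, L * MBV N (2 * π * p / N : ℂ) b * pH N p = 0 := by
      intro b
      ext y x
      rw [hL, pH, Matrix.mul_diagonal, Matrix.diagonal_mul, Matrix.zero_apply]
      by_cases h1 : N ≤ (y : ℕ) + p
      · rw [if_pos h1]
        ring
      by_cases h2 : N ≤ (x : ℕ) + p
      · have h3 : MBV N (2 * π * p / N : ℂ) b y x = 0 := by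
          unfold MBV
          split_ifs with h4
          · rw [prod_eq_zero (i := N - p) (by rw [mem_Ioc]; omega) hPh, zero_mul]
          · rfl
        rw [h3]
        ring
      · rw [if_neg h2]
        ring
    have hR0 : ∀ s : Vx × Vx, L * (MAV N s.1 * MBV N (2 * π * p / N : ℂ) s.2) * pH N p = 0 := by
      intro s
      calc L * (MAV N s.1 * MBV N (2 * π * p / N : ℂ) s.2) * pH N p =
          L * (MAV N s.1 * (pH N p + L) * MBV N (2 * π * p / N : ℂ) s.2) * pH N p := by
            rw [hHL, mul_one]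
        _ = (L * MAV N s.1 * pH N p) * MBV N (2 * π * p / N : ℂ) s.2 * pH N p +
            L * MAV N s.1 * (L * MBV N (2 * π * p / N : ℂ) s.2 * pH N p) := by noncomm_ring
        _ = 0 := by rw [hLA, hLB]; simp
    have hHR : ∀ s : Vx × Vx, pH N p * (MAV N s.1 * MBV N (2 * π * p / N : ℂ) s.2) * pH N p =
        pH N p * (MAV N s.1 * pH N p * MBV N (2 * π * p / N : ℂ) s.2) * pH N p := by
      intro s
      calc pH N p * (MAV N s.1 * MBV N (2 * π * p / N : ℂ) s.2) * pH N p =
          pH N p * (MAV N s.1 * (pH N p + L) * MBV N (2 * π * p / N : ℂ) s.2) * pH N p := by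
            rw [hHL, mul_one]
        _ = pH N p * (MAV N s.1 * pH N p * MBV N (2 * π * p / N : ℂ) s.2) * pH N p +
            pH N p * MAV N s.1 * (L * MBV N (2 * π * p / N : ℂ) s.2 * pH N p) := by noncomm_ring
        _ = _ := by rw [hLB]; simp
    have hLR : ∀ s : Vx × Vx, L * (MAV N s.1 * MBV N (2 * π * p / N : ℂ) s.2) * L =
        L * (MAV N s.1 * (L * MBV N (2 * π * p / N : ℂ) s.2)) * L := by
      intro s
      calc L * (MAV N s.1 * MBV N (2 * π * p / N : ℂ) s.2) * L =
          L * (MAV N s.1 * (pH N p + L) * MBV N (2 * π * p / N : ℂ) s.2) * L := by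
            rw [hHL, mul_one]
        _ = (L * MAV N s.1 * pH N p) * MBV N (2 * π * p / N : ℂ) s.2 * L +
            L * (MAV N s.1 * (L * MBV N (2 * π * p / N : ℂ) s.2)) * L := by noncomm_ring
        _ = _ := by rw [hLA]; simp
    have h1 := tr_blk hHL hLH hHH hLL
      (fun s : Vx × Vx => MAV N s.1 * MBV N (2 * π * p / N : ℂ) s.2) hR0 ls
    simp only [hHR] at h1
    rw [Matrix.trace_mul_comm, ← mul_assoc, hHH, lstH hHH] at h1
    have e1 : TV N ls (2 * π * p / N : ℂ) - ThV N ls p =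
        (L * (ls.map fun s : Vx × Vx =>
          L * (MAV N s.1 * MBV N (2 * π * p / N : ℂ) s.2) * L).prod * L).trace := by
      unfold TV ThV
      rw [h1]
      ring
    rw [e1]
    have h2 : ∀ s ∈ ls, Bd (fun x : Fin N => (if N ≤ (x : ℕ) + p then (0 : ℝ) else 1) *
        (Ty * wp N e x)) (fun x : Fin N => wp' N e u x * 1)
        (L * (MAV N s.1 * MBV N (2 * π * p / N : ℂ) s.2) * L) := by
      intro s hs
      rw [hLR, hMB]
      have h3 := (HH s hs).2.diag_left
        (d := fun i : Fin N => if N ≤ i + p then (0 : ℂ) else 1)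
        (δ := fun i : Fin N => if N ≤ (i : ℕ) + p then (0 : ℝ) else 1) (fun i => norm_mask')
      have h4 := (((HH s hs).1.mul h3).diag_left
        (d := fun i : Fin N => if N ≤ i + p then (0 : ℂ) else 1)
        (δ := fun i : Fin N => if N ≤ (i : ℕ) + p then (0 : ℝ) else 1)
        (fun i => norm_mask')).diag_right
        (d := fun i : Fin N => if N ≤ i + p then (0 : ℂ) else 1) (δ := fun _ => 1)
        (fun i => norm_mask1')
      refine h4.mono fun i j => le_of_eq ?_
      congr 3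
      rw [hTy]
      exact sum_congr rfl fun y _ => by ring
    have h3 := tr_bd' hl h2 (d := fun i : Fin N => if N ≤ i + p then (0 : ℂ) else 1)
      (e := fun i : Fin N => if N ≤ i + p then (0 : ℂ) else 1) (fun i => norm_mask1')
      (fun i => norm_mask1')
    refine h3.trans ?_
    have e3 : ∑ x : Fin N, wp' N e u x * 1 *
        ((if N ≤ (x : ℕ) + p then (0 : ℝ) else 1) * (Ty * wp N e x)) = Ty * Tx := by
      rw [hTx, mul_sum]
      exact sum_congr rfl fun x _ => by ring
    rw [e3, ← hk]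
    exact hfin _ (mul_nonneg hTy0 hTx0) hT

end Pool.Agent.Y319.DR
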